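import Pool.Agent.Helper21.D2.Stmts
import Pool.Agent.Helper82.AHS.Nd

/-!
# D2, module GNR: skew matrices kill all Hodge tensors
-/

set_option autoImplicit false

namespace Pool.Agent.Helper21.TH

open Matrix Pool.Agent.Helper82.AHS

variable {r : ℕ}

theorem dr_one_eq {K : Type*} [CommRing K] (m : ℕ) :
    dr m (1 : Matrix (Fin r) (Fin r) K) = (m : K) • (1 : T r m m K) := by
  unfold dr
  have h : ∀ a : Fin m, pwf (Function.update (fun _ => (1 : Matrix (Fin r) (Fin r) K)) a 1) =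
      (1 : T r m m K) := by
    intro a
    rw [show (Function.update (fun _ => (1 : Matrix (Fin r) (Fin r) K)) a 1) =
      (fun _ => (1 : Matrix (Fin r) (Fin r) K)) from Function.update_eq_self a _]
    exact pwf_one
  rw [Finset.sum_congr rfl fun a _ => h a, Finset.sum_const, Finset.card_univ, Fintype.card_fin,
    ← Nat.cast_smul_eq_nsmul K]

theorem trace_rel {V : HS r} {w : ℤ} {Q : Matrix (Fin r) (Fin r) ℚ} (hdet : Q.det ≠ 0)
    (hrel : V.Dᵀ * Q.map (algebraMap ℚ ℂ) + Q.map (algebraMap ℚ ℂ) * V.D =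
        (w : ℂ) • Q.map (algebraMap ℚ ℂ)) : 2 * ∑ j, V.p j = r * w := by
  have h1 : Q * Q⁻¹ = 1 := Matrix.mul_nonsing_inv Q (isUnit_iff_ne_zero.mpr hdet)
  set QC : Matrix (Fin r) (Fin r) ℂ := Q.map (algebraMap ℚ ℂ) with hQC
  set QI : Matrix (Fin r) (Fin r) ℂ := (Q⁻¹).map (algebraMap ℚ ℂ) with hQI
  have h2 : QC * QI = 1 := map_inv_aux h1
  have h3 : QI * QC = 1 := mul_eq_one_comm.mp h2
  have h4 := congrArg (fun X => trace (X * QI)) hrel
  simp only [Matrix.add_mul, trace_add, Matrix.smul_mul, trace_smul] at h4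
  rw [Matrix.mul_assoc, h2, Matrix.mul_one, trace_transpose, Matrix.mul_assoc, trace_mul_comm,
    Matrix.mul_assoc, h3, Matrix.mul_one, trace_one, Fintype.card_fin] at h4
  have h5 : trace V.D = ∑ j, (V.p j : ℂ) := by
    unfold HS.D
    rw [trace_mul_comm, ← Matrix.mul_assoc, gl_inv_mul, Matrix.one_mul, trace_diagonal]
  rw [h5, smul_eq_mul] at h4
  have h6 : ((2 * ∑ j, V.p j : ℤ) : ℂ) = ((r * w : ℤ) : ℂ) := by
    push_cast
    linear_combination h4
  exact_mod_cast h6

/-- GNR -/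
theorem st_GNR (irh : ST_IRH) (sym : ST_SYM) (kpl : ST_KPL) (wt0 : ST_WT0) (den : MT.ST_DEN)
    (tos : MT.ST_TOS) : ST_GNR := by
  intro r V w Q hQ hT hA A hskew m n t ht
  obtain ⟨hpure, mm, hmm, hbd, hcard, hinn, hthin⟩ := hT
  obtain ⟨hdet, hev, hodd, hrel⟩ := sym r V w Q hpure hQ
  have hr : 0 < r := by
    have h3 := (Finset.card_filter_le (Finset.univ : Finset (Fin r)) (fun j => V.p j = mm))
    rw [Finset.card_univ, Fintype.card_fin] at h3
    omega
  have hpol : V.Hodge (polT Q) := ((kpl r ℂ Q V.D hdet).1).mpr ⟨(w : ℂ), hrel⟩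
  set a₀ : Submodule ℚ (Matrix (Fin r) (Fin r) ℚ) := Ann ℚ V.HT with ha₀
  set a : Submodule ℚ (Matrix (Fin r) (Fin r) ℚ) := a₀ ⊔ Submodule.span ℚ {1} with ha
  have hmem : ∀ X, X ∈ a ↔ ∃ x ∈ a₀, ∃ c : ℚ, X = x + c • 1 := by
    intro X
    rw [ha, Submodule.mem_sup]
    constructor
    · rintro ⟨x, hx, y, hy, rfl⟩
      obtain ⟨c, rfl⟩ := Submodule.mem_span_singleton.mp hy
      exact ⟨x, hx, c, rfl⟩
    · rintro ⟨x, hx, c, rfl⟩
      exact ⟨x, hx, c • 1, Submodule.mem_span_singleton.mpr ⟨c, rfl⟩, rfl⟩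
  have hlie : ∀ x ∈ a₀, ∃ c : ℚ, xᵀ * Q + Q * x = c • Q := by
    intro x hx
    have h1 := hx 2 2 (polT Q) hpol
    obtain ⟨c, hc⟩ := ((kpl r ℚ Q x hdet).1).mp h1
    rw [map_rat] at hc
    exact ⟨c, hc⟩
  have hsim : ∀ X ∈ a, ∃ c : ℚ, Xᵀ * Q + Q * X = c • Q := by
    intro X hX
    obtain ⟨x, hx, c, rfl⟩ := (hmem X).mp hX
    obtain ⟨d, hd⟩ := hlie x hx
    refine ⟨d + 2 * c, ?_⟩
    rw [Matrix.transpose_add, Matrix.transpose_smul, Matrix.transpose_one, Matrix.add_mul,
      Matrix.mul_add, Matrix.smul_mul, Matrix.mul_smul, Matrix.one_mul, Matrix.mul_one, add_smul,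
      ← hd, mul_smul, two_smul]
    abel
  have hbrk : MT.Brk a := by
    intro X hX Y hY
    obtain ⟨x, hx, c, rfl⟩ := (hmem X).mp hX
    obtain ⟨y, hy, d, rfl⟩ := (hmem Y).mp hY
    rw [hmem]
    refine ⟨x * y - y * x, Ann_lie hx hy, 0, ?_⟩
    simp only [Matrix.add_mul, Matrix.mul_add, Matrix.smul_mul, Matrix.mul_smul, Matrix.one_mul,
      Matrix.mul_one, zero_smul, add_zero, smul_add, smul_smul]
    rw [mul_comm d c]
    abel
  have hD : V.D ∈ Submodule.span ℂ {B | ∃ A ∈ a, B = A.map (algebraMap ℚ ℂ)} := by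
    have h1 := ann_span ℂ V.HT V.D_mem
    refine Submodule.span_mono ?_ h1
    rintro _ ⟨u, hu, rfl⟩
    exact ⟨u, Submodule.mem_sup_left hu, rfl⟩
  have hone : (1 : Matrix (Fin r) (Fin r) ℂ) ∈
      Submodule.span ℂ {B | ∃ A ∈ a, B = A.map (algebraMap ℚ ℂ)} := by
    refine Submodule.subset_span ⟨1, ?_, ?_⟩
    · rw [hmem]
      exact ⟨0, Submodule.zero_mem _, 1, by rw [one_smul, zero_add]⟩
    · rw [Matrix.map_one _ (map_zero _) (map_one _)]
  obtain ⟨hirr, hcomm⟩ := irh r V w Q a hpure hQ hA hsim hD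
  have hirrC := den ℚ ℂ r (a : Set (Matrix (Fin r) (Fin r) ℚ)) hirr hcomm
  -- the shift
  obtain ⟨k, hk⟩ : ∃ k : ℕ, k = w.natAbs + mm.natAbs := ⟨_, rfl⟩
  have hp0 : ∀ j, 0 ≤ V.p j + k := by
    intro j
    have := hbd j
    omega
  obtain ⟨w', hw'⟩ : ∃ w' : ℕ, (w' : ℤ) = w + 2 * k := ⟨(w + 2 * k).toNat, by omega⟩
  obtain ⟨m', hm'⟩ : ∃ m' : ℕ, (m' : ℤ) = mm + k := ⟨(mm + k).toNat, by omega⟩
  obtain ⟨h, hh⟩ : ∃ h : Fin r → ℕ, ∀ j, (h j : ℤ) = V.p j + k :=
    ⟨fun j => (V.p j + k).toNat, fun j => by have := hp0 j; simp only; omega⟩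
  have hthin' : MT.Thin w' h := by
    refine ⟨m', by omega, fun j => ?_, ?_, ?_, ?_⟩
    · have h1 := hbd j
      have h2 := hh j
      omega
    · have h1 : (Finset.univ.filter fun j => h j = m') =
          (Finset.univ.filter fun j => V.p j = mm) := by
        ext j
        have h2 := hh j
        simp only [Finset.mem_filter, Finset.mem_univ, true_and]
        omega
      rw [h1]
      exact hcard
    · obtain ⟨j, hj1, hj2⟩ := hinn
      have h2 := hh j
      exact ⟨j, by omega, by omega⟩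
    · intro p hp1 hp2
      have h1 : (Finset.univ.filter fun j => h j = p) =
          (Finset.univ.filter fun j => V.p j = (p : ℤ) - k) := by
        ext j
        have h2 := hh j
        simp only [Finset.mem_filter, Finset.mem_univ, true_and]
        omega
      rw [h1]
      have h2 := hthin ((p : ℤ) - k) (by omega) (by omega)
      by_cases h3 : 2 * p = w'
      · rw [if_pos h3]
        rw [if_pos (by omega)] at h2
        exact h2
      · rw [if_neg h3]
        rw [if_neg (by omega)] at h2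
        exact h2
  have hsign : Q.transpose = (-1 : ℚ) ^ w' • Q := by
    rcases Int.even_or_odd w with hw | hw
    · have h1 : Even w' := by
        rw [← Int.even_coe_nat, hw']
        exact hw.add (even_two_mul _)
      rw [h1.neg_one_pow, one_smul]
      exact hev hw
    · have h1 : Odd w' := by
        rw [← Int.odd_coe_nat, hw']
        exact hw.add_even (even_two_mul _)
      rw [h1.neg_one_pow, neg_one_smul]
      exact hodd hw
  have hsum : 2 * ∑ j, h j = r * w' := by
    have h1 := trace_rel hdet hrel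
    have h2 : ((2 * ∑ j, h j : ℕ) : ℤ) = ((r * w' : ℕ) : ℤ) := by
      push_cast
      rw [Finset.sum_congr rfl fun j _ => hh j, Finset.sum_add_distrib, Finset.sum_const,
        Finset.card_univ, Fintype.card_fin, hw', nsmul_eq_mul]
      linear_combination h1
    exact_mod_cast h2
  have hΘ : (V.P : Matrix (Fin r) (Fin r) ℂ) * Matrix.diagonal (fun j => (h j : ℂ)) *
      ((V.P⁻¹ : Matrix.GeneralLinearGroup (Fin r) ℂ) : Matrix (Fin r) (Fin r) ℂ) ∈
        Submodule.span ℂ {B | ∃ A ∈ a, B = A.map (algebraMap ℚ ℂ)} := by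
    have h1 : (V.P : Matrix (Fin r) (Fin r) ℂ) * Matrix.diagonal (fun j => (h j : ℂ)) *
      ((V.P⁻¹ : Matrix.GeneralLinearGroup (Fin r) ℂ) : Matrix (Fin r) (Fin r) ℂ) =
        V.D + (k : ℂ) • 1 := by
      have h2 : Matrix.diagonal (fun j => (h j : ℂ)) =
          Matrix.diagonal (fun j => (V.p j : ℂ)) + (k : ℂ) • (1 : Matrix (Fin r) (Fin r) ℂ) := by
        rw [Matrix.smul_one_eq_diagonal, Matrix.diagonal_add]
        congr 1
        funext j
        have h3 := hh j
        have h4 : ((h j : ℤ) : ℂ) = ((V.p j + k : ℤ) : ℂ) := by rw [h3]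
        push_cast at h4
        exact h4
      rw [h2, Matrix.mul_add, Matrix.add_mul, Matrix.mul_smul, Matrix.mul_one, Matrix.smul_mul,
        gl_mul_inv]
      rfl
    rw [h1]
    exact Submodule.add_mem _ hD (Submodule.smul_mem _ _ hone)
  have hAa := tos ℚ ℂ r w' h Q V.P a hthin' hdet hsign hbrk hsim hsum hirrC hΘ A hskew
  obtain ⟨x, hx, c, rfl⟩ := (hmem A).mp hAa
  have hxt : dr m x * t = t * dr n x := by
    have h1 := hx m n t ht
    rw [up_rat] at h1
    exact h1
  rw [dr_add, dr_add, dr_smul, dr_smul, dr_one_eq, dr_one_eq, Matrix.add_mul, Matrix.mul_add, hxt]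
  by_cases hmn : m = n
  · subst hmn
    simp only [Matrix.smul_mul, Matrix.mul_smul, Matrix.one_mul, Matrix.mul_one]
  · by_cases hw : w = 0
    · have hform : V.Hodge (formT Q) := ((kpl r ℂ Q V.D hdet).2).mpr (by
        rw [hrel, hw, Int.cast_zero, zero_smul])
      have h1 := ((kpl r ℚ Q x hdet).2).mp (hx 0 2 (formT Q) hform)
      rw [map_rat] at h1
      have h2 : (2 * c) • Q = 0 := by
        have h3 := hskew
        rw [Matrix.transpose_add, Matrix.transpose_smul, Matrix.transpose_one, Matrix.add_mul,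
          Matrix.mul_add, Matrix.smul_mul, Matrix.mul_smul, Matrix.one_mul, Matrix.mul_one] at h3
        rw [mul_smul, two_smul]
        calc c • Q + c • Q = (xᵀ * Q + c • Q + (Q * x + c • Q)) - (xᵀ * Q + Q * x) := by abel
          _ = 0 := by rw [h3, h1, sub_zero]
      have hQ0 : Q ≠ 0 := by
        rintro rfl
        have : Nonempty (Fin r) := ⟨⟨0, hr⟩⟩
        exact hdet Matrix.det_zero
      have hc : c = 0 := by
        rcases smul_eq_zero.mp h2 with h3 | h3
        · linarith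
        · exact absurd h3 hQ0
      rw [hc, zero_smul, zero_smul, Matrix.zero_mul, Matrix.mul_zero]
    · have h1 := wt0 r m n V w t hpure hw hmn ht
      rw [h1]
      simp only [Matrix.mul_zero, Matrix.zero_mul]

end Pool.Agent.Helper21.TH
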