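import Pool.Agent.Helper82.AHS.Defs

/-!
# Polarized Hodge structures with small inner Hodge numbers
-/

set_option autoImplicit false

namespace Pool.Agent.Helper21.TH

open Matrix Pool.Agent.Helper82.AHS

/-- The invariant `Q⁻¹ ⊗ Q` of a bilinear form, of type `(2, 2)`. -/
noncomputable def polT {r : ℕ} (Q : Matrix (Fin r) (Fin r) ℚ) : T r 2 2 ℚ :=
  of fun i j => Q⁻¹ (i 0) (i 1) * Q (j 0) (j 1)

/-- A bilinear form as a tensor of type `(0, 2)`. -/
def formT {r : ℕ} (Q : Matrix (Fin r) (Fin r) ℚ) : T r 0 2 ℚ :=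
  of fun _ j => Q (j 0) (j 1)

/-- `V` is pure of weight `w`; the Hodge numbers are at most one, and at most two in the middle,
except for the outermost ones, which are at least two; and there are inner ones. (`V.p` lists the
types `(a, w - a)` with their multiplicities, and `m` is the largest `a`.) -/
def Thin {r : ℕ} (V : HS r) (w : ℤ) : Prop :=
  (∀ i, V.p i + V.q i = w) ∧ ∃ m : ℤ, w < 2 * m ∧ (∀ j, V.p j ≤ m ∧ w ≤ V.p j + m) ∧
    2 ≤ (Finset.univ.filter fun j => V.p j = m).card ∧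
    (∃ j, V.p j ≠ m ∧ V.p j + m ≠ w) ∧
    ∀ a : ℤ, a ≠ m → a + m ≠ w →
      (Finset.univ.filter fun j => V.p j = a).card ≤ if 2 * a = w then 2 else 1

/-- The endomorphisms of the Hodge structure are the rational numbers. -/
def EndQ {r : ℕ} (V : HS r) : Prop :=
  ∀ X : Matrix (Fin r) (Fin r) ℚ,
    X.map (algebraMap ℚ ℂ) * V.D = V.D * X.map (algebraMap ℚ ℂ) → ∃ c : ℚ, X = c • 1

/-- The Hodge structure is irreducible (over `ℚ`). -/
def Irr {r : ℕ} (V : HS r) : Prop :=
  ∀ U : Submodule ℚ (Fin r → ℚ),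
    (∀ u ∈ U, V.D *ᵥ (fun i => ((u i : ℚ) : ℂ)) ∈
      Submodule.span ℂ {v : Fin r → ℂ | ∃ u ∈ U, v = fun i => ((u i : ℚ) : ℂ)}) →
    U = ⊥ ∨ U = ⊤

/-- The Hodge number in the middle is one. -/
def Mid {r : ℕ} (V : HS r) (w : ℤ) : Prop :=
  (Finset.univ.filter fun j => 2 * V.p j = w).card = 1

/-- The Hodge structure has endomorphisms `ℚ`; or it is irreducible with middle Hodge number
one. -/
def AIrr {r : ℕ} (V : HS r) (w : ℤ) : Prop := EndQ V ∨ (Mid V w ∧ Irr V)

end Pool.Agent.Helper21.TH
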