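import Pool.Agent.Helper21.D2.Defs

/-!
# Polarized Hodge structures with an isolated Hodge number one, or with small inner Hodge numbers
-/

set_option autoImplicit false

namespace Pool.Agent.Helper21.TH

open Matrix Pool.Agent.Helper82.AHS

/-- The Hodge types `(x, w - x)` other than `(m, w - m)` and `(w - m, m)`. -/
def Inn (w m x : ℤ) : Prop := x ≠ m ∧ x + m ≠ w

/-- The Hodge type `(m, w - m)` is isolated: with the differences `p - q` of the other types
`(p, q)` and `D = m - (w - m)`, the number `D` is not a sum of three of them, `2 D` is not a sum of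
two, and `3 D` is not one of them. -/
def Isol {r : ℕ} (V : HS r) (w m : ℤ) : Prop :=
  ∀ i j k, Inn w m (V.p i) → Inn w m (V.p j) → Inn w m (V.p k) →
    V.p i + V.p j + V.p k ≠ m + w ∧ V.p i + V.p j ≠ 2 * m ∧ V.p i + w ≠ 3 * m

/-- `V` is pure of weight `w`; there are types other than `(m, w - m)` and `(w - m, m)`, for some
`m > w / 2`, and either the type `(m, w - m)` is isolated with Hodge number one, or it is isolated
or outermost and all the other Hodge numbers are at most one, and at most two in the middle.
(`V.p` lists the types `(a, w - a)` with their multiplicities.) -/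
def Good {r : ℕ} (V : HS r) (w : ℤ) : Prop :=
  (∀ i, V.p i + V.q i = w) ∧ ∃ m : ℤ, w < 2 * m ∧ (∃ j, Inn w m (V.p j)) ∧
    ((Isol V w m ∧ (Finset.univ.filter fun j => V.p j = m).card = 1) ∨
      ((Isol V w m ∨ ∀ j, V.p j ≤ m ∧ w ≤ V.p j + m) ∧
        2 ≤ (Finset.univ.filter fun j => V.p j = m).card ∧
        ∀ a : ℤ, Inn w m a →
          (Finset.univ.filter fun j => V.p j = a).card ≤ if 2 * a = w then 2 else 1))

end Pool.Agent.Helper21.TH
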