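import Pool.Agent.Helper21.D2.DefsG

/-!
# Polarized Hodge structures with isolated Hodge numbers
-/

set_option autoImplicit false

namespace Pool.Agent.Helper21.TH

open Matrix Pool.Agent.Helper82.AHS

/-- No common divisor of the Hodge numbers has square `≥ r`. -/
def Sml {r : ℕ} (V : HS r) : Prop :=
  ∀ u : ℕ, (∀ a : ℤ, u ∣ (Finset.univ.filter fun j => V.p j = a).card) → u ^ 2 < r

/-- There are two inner types which are not conjugate. -/
def Two {r : ℕ} (V : HS r) (w m : ℤ) : Prop :=
  ∃ i j, Inn w m (V.p i) ∧ Inn w m (V.p j) ∧ V.p i ≠ V.p j ∧ V.p i + V.p j ≠ w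

/-- With `a` the Hodge number of `(m, w - m)` and `b` the sum of the inner ones:
`3 a ^ 2 + a < 2 b`, and not `a = 2`, `b = 8`; or `b ^ 2 + b + 3 ≤ 2 a`. -/
def Far {r : ℕ} (V : HS r) (w m : ℤ) : Prop :=
  (3 * (Finset.univ.filter fun j => V.p j = m).card ^ 2 +
      (Finset.univ.filter fun j => V.p j = m).card <
        2 * (Finset.univ.filter fun j => V.p j ≠ m ∧ V.p j + m ≠ w).card ∧
    ¬ ((Finset.univ.filter fun j => V.p j = m).card = 2 ∧
      (Finset.univ.filter fun j => V.p j ≠ m ∧ V.p j + m ≠ w).card = 8)) ∨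
  (Finset.univ.filter fun j => V.p j ≠ m ∧ V.p j + m ≠ w).card ^ 2 +
    (Finset.univ.filter fun j => V.p j ≠ m ∧ V.p j + m ≠ w).card + 3 ≤
      2 * (Finset.univ.filter fun j => V.p j = m).card

/-- The type `(m, w - m)` is isolated or outermost, its Hodge number is at least two, and all the
other Hodge numbers are at most one, and at most two in the middle. -/
def Thn {r : ℕ} (V : HS r) (w m : ℤ) : Prop :=
  (Isol V w m ∨ ∀ j, V.p j ≤ m ∧ w ≤ V.p j + m) ∧
    2 ≤ (Finset.univ.filter fun j => V.p j = m).card ∧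
    ∀ a : ℤ, Inn w m a →
      (Finset.univ.filter fun j => V.p j = a).card ≤ if 2 * a = w then 2 else 1

/-- `V` is pure of weight `w`, for some `m > w / 2` there are types other than `(m, w - m)`,
`(w - m, m)` (inner types), and: the type `(m, w - m)` is isolated, and its Hodge number is one; or
it is isolated, its Hodge number is not zero, and there are two inner types which are not conjugate
and no common divisor of the Hodge numbers has square `≥ r`, or `Far`; or `Thn`.
(`V.p` lists the types `(a, w - a)` with their multiplicities.) -/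
def WideH {r : ℕ} (V : HS r) (w : ℤ) : Prop :=
  (∀ i, V.p i + V.q i = w) ∧ ∃ m : ℤ, w < 2 * m ∧ (∃ j, Inn w m (V.p j)) ∧
    ((Isol V w m ∧ (Finset.univ.filter fun j => V.p j = m).card = 1) ∨
      (Isol V w m ∧ (∃ j, V.p j = m) ∧ ((Sml V ∧ Two V w m) ∨ Far V w m)) ∨ Thn V w m)

end Pool.Agent.Helper21.TH
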