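import Pool.Agent.Helper21.D2.DefsG

/-!
# Polarized Hodge structures with coprime Hodge numbers
-/

set_option autoImplicit false

namespace Pool.Agent.Helper21.TH

open Matrix Pool.Agent.Helper82.AHS

/-- The Hodge numbers are coprime. -/
def Cop {r : ℕ} (V : HS r) : Prop :=
  ∀ u : ℕ, (∀ a : ℤ, u ∣ (Finset.univ.filter fun j => V.p j = a).card) → u = 1

/-- `V` is pure of weight `w`, for some `m > w / 2` there are types other than `(m, w - m)`,
`(w - m, m)` (inner types), and one of the following holds. (1) The type `(m, w - m)` is isolated,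
and its Hodge number `a` is one; or it is not zero, the Hodge numbers are coprime and there are two
inner types which are not conjugate; or it is not zero, prime to the sum `b` of the inner Hodge
numbers, and `3 a ^ 2 + a < 2 b` or `b ^ 2 + b + 3 ≤ 2 a`. (2) The type `(m, w - m)` is isolated or
outermost, `a ≥ 2`, and all the other Hodge numbers are at most one, and at most two in the middle.
(`V.p` lists the types `(a, w - a)` with their multiplicities.) -/
def Wide {r : ℕ} (V : HS r) (w : ℤ) : Prop :=
  (∀ i, V.p i + V.q i = w) ∧ ∃ m : ℤ, w < 2 * m ∧ (∃ j, Inn w m (V.p j)) ∧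
    ((Isol V w m ∧ ((Finset.univ.filter fun j => V.p j = m).card = 1 ∨
        (Cop V ∧ (∃ j, V.p j = m) ∧
          ∃ i j, Inn w m (V.p i) ∧ Inn w m (V.p j) ∧ V.p i ≠ V.p j ∧ V.p i + V.p j ≠ w) ∨
        ((∃ j, V.p j = m) ∧ Nat.Coprime (Finset.univ.filter fun j => V.p j = m).card
            (Finset.univ.filter fun j => V.p j ≠ m ∧ V.p j + m ≠ w).card ∧
          (3 * (Finset.univ.filter fun j => V.p j = m).card ^ 2 +
            (Finset.univ.filter fun j => V.p j = m).card <
              2 * (Finset.univ.filter fun j => V.p j ≠ m ∧ V.p j + m ≠ w).card ∨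
            (Finset.univ.filter fun j => V.p j ≠ m ∧ V.p j + m ≠ w).card ^ 2 +
              (Finset.univ.filter fun j => V.p j ≠ m ∧ V.p j + m ≠ w).card + 3 ≤
                2 * (Finset.univ.filter fun j => V.p j = m).card)))) ∨
      ((Isol V w m ∨ ∀ j, V.p j ≤ m ∧ w ≤ V.p j + m) ∧
        2 ≤ (Finset.univ.filter fun j => V.p j = m).card ∧
        ∀ a : ℤ, Inn w m a →
          (Finset.univ.filter fun j => V.p j = a).card ≤ if 2 * a = w then 2 else 1))

end Pool.Agent.Helper21.TH
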