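import Pool.Agent.Helper21.D2.FinalD2
import Pool.Agent.Helper21.D2.GNRG
import Pool.Agent.Helper21.D2.MainG

/-!
# D2: the final theorem for good Hodge numbers
-/

set_option autoImplicit false

namespace Pool.Agent.Helper21.TH

open Matrix Pool.Agent.Helper82.AHS

/-- From the conclusion of MAIN to the statement about absolute Hodge tensors (as in
`final_of`). -/
theorem final_core {r : ℕ} (S : System r) (w : ℤ) (σ : ℂ ≃+* ℂ)
    (hmain' : ∃ s : Nat.Primes → ℚ, (∀ ℓ, s ℓ = 1 ∨ s ℓ = -1) ∧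
      ∀ (m n : ℕ) (t : T r m n ℚ), S.V.Hodge t → (m = n ∨ w ≠ 0 ∨ S.AbsAt σ (formT S.Q)) →
        ∃ a b : T r m n ℚ, (S.W σ).Hodge a ∧ (S.W σ).Hodge b ∧
          up ℂ (a + b) = act (S.M σ) (up ℂ t) ∧
          (∀ ℓ : Nat.Primes, up (@Padic ℓ ⟨ℓ.2⟩) (a + s ℓ • b) =
            act (S.E σ ℓ) (up (@Padic ℓ ⟨ℓ.2⟩) t)) ∧
          (Odd w ∨ m + n < r ∨ Odd (m + n + r) → b = 0) ∧
          ((∃ g : GL (Fin r) ℚ, (g : Matrix (Fin r) (Fin r) ℚ)ᵀ * S.Q *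
            (g : Matrix (Fin r) (Fin r) ℚ) = S.Q ∧ act g t ≠ t) → b ≠ 0)) (m n : ℕ)
    (t : T r m n ℚ) (ht : S.V.Hodge t) (hmn : m = n ∨ w ≠ 0 ∨ S.AbsAt σ (formT S.Q)) :
    (Odd w ∨ m + n < r ∨ Odd (m + n + r) → S.AbsAt σ t) ∧
    (∃ t' : T r m n ℚ, (S.W σ).Hodge t' ∧ up ℂ t' = act (S.M σ) (up ℂ t)) ∧
    (∀ ℓ : Nat.Primes, ∃ t' : T r m n ℚ, (S.W σ).Hodge t' ∧
      up (@Padic ℓ ⟨ℓ.2⟩) t' = act (S.E σ ℓ) (up (@Padic ℓ ⟨ℓ.2⟩) t)) ∧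
    (S.AbsAt σ t → (∃ g : GL (Fin r) ℚ, (g : Matrix (Fin r) (Fin r) ℚ)ᵀ * S.Q *
        (g : Matrix (Fin r) (Fin r) ℚ) = S.Q ∧ act g t ≠ t) →
      ∀ (m' n' : ℕ) (t' : T r m' n' ℚ), S.V.Hodge t' →
        (m' = n' ∨ w ≠ 0 ∨ S.AbsAt σ (formT S.Q)) → S.AbsAt σ t') := by
  obtain ⟨s, hs, hmain⟩ := hmain'
  have hadd : ∀ {a b : ℕ} {x y : T r a b ℚ}, (S.W σ).Hodge x → (S.W σ).Hodge y →
      (S.W σ).Hodge (x + y) := by
    intro a b x y hx hy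
    unfold HS.Hodge at *
    have h1 : up ℂ (x + y) = up ℂ x + up ℂ y := by
      ext i j
      simp [up]
    rw [h1, Matrix.mul_add, Matrix.add_mul, hx, hy]
  have hsub : ∀ {a b : ℕ} {x : T r a b ℚ} (c : ℚ), (S.W σ).Hodge x →
      (S.W σ).Hodge (c • x) := by
    intro a b x c hx
    unfold HS.Hodge at *
    have h1 : up ℂ (c • x) = (c : ℂ) • up ℂ x := by
      ext i j
      simp [up]
    rw [h1, Matrix.mul_smul, Matrix.smul_mul, hx]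
  obtain ⟨a, b, ha, hb, h1, h2, h3, h4⟩ := hmain m n t ht hmn
  refine ⟨fun h => ?_, ⟨a + b, hadd ha hb, h1⟩,
    fun ℓ => ⟨a + s ℓ • b, hadd ha (hsub _ hb), h2 ℓ⟩, ?_⟩
  · have hb0 := h3 h
    subst hb0
    refine ⟨a, ha, ?_, fun ℓ => ?_⟩
    · rw [← h1, add_zero]
    · rw [← h2 ℓ, smul_zero, add_zero]
  · rintro ⟨t', -, h5, h6⟩ hg m' n' u hu hmn'
    have hb0 := h4 hg
    have hinj : ∀ (K : Type) [Field K] [Algebra ℚ K] {x y : T r m n ℚ}, up K x = up K y →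
        x = y := by
      intro K _ _ x y hxy
      ext i j
      have h7 := congrFun (congrFun hxy i) j
      simp only [up, Matrix.map_apply] at h7
      exact (algebraMap ℚ K).injective h7
    have h7 : t' = a + b := hinj ℂ (h5.trans h1.symm)
    have hs1 : ∀ ℓ, s ℓ = 1 := by
      intro ℓ
      have h8 : t' = a + s ℓ • b := hinj _ ((h6 ℓ).trans (h2 ℓ).symm)
      rcases hs ℓ with h9 | h9
      · exact h9
      · exfalso
        rw [h7, h9, neg_one_smul] at h8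
        have h10 : b = -b := add_left_cancel h8
        apply hb0
        have h11 : (2 : ℚ) • b = 0 := by
          rw [two_smul]
          nth_rw 1 [h10]
          exact neg_add_cancel b
        exact (smul_eq_zero.mp h11).resolve_left two_ne_zero
    obtain ⟨a', b', ha', hb', h1', h2', -, -⟩ := hmain m' n' u hu hmn'
    refine ⟨a' + b', hadd ha' hb', h1', fun ℓ => ?_⟩
    have h8 := h2' ℓ
    rw [hs1 ℓ, one_smul] at h8
    exact h8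

/-- The final theorem for good Hodge numbers. -/
theorem final_good (irh : ST_IRH) (sym : ST_SYM) (kpl : ST_KPL) (wt0 : ST_WT0) (den : MT.ST_DEN)
    (tos : MT.ST_TOSG) (sml : ST_SML) (fct : ST_FCT) (psd : ST_PSD) (trp : ST_TRP)
    (hdg : ST_HDG) {r : ℕ} (S : System r) (w : ℤ) (hT : Good S.V w)
    (hA : AIrr S.V w) (σ : ℂ ≃+* ℂ) (hQ : S.AbsAt σ (polT S.Q)) (m n : ℕ) (t : T r m n ℚ)
    (ht : S.V.Hodge t) (hmn : m = n ∨ w ≠ 0 ∨ S.AbsAt σ (formT S.Q)) :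
    (Odd w ∨ m + n < r ∨ Odd (m + n + r) → S.AbsAt σ t) ∧
    (∃ t' : T r m n ℚ, (S.W σ).Hodge t' ∧ up ℂ t' = act (S.M σ) (up ℂ t)) ∧
    (∀ ℓ : Nat.Primes, ∃ t' : T r m n ℚ, (S.W σ).Hodge t' ∧
      up (@Padic ℓ ⟨ℓ.2⟩) t' = act (S.E σ ℓ) (up (@Padic ℓ ⟨ℓ.2⟩) t)) ∧
    (S.AbsAt σ t → (∃ g : GL (Fin r) ℚ, (g : Matrix (Fin r) (Fin r) ℚ)ᵀ * S.Q *
        (g : Matrix (Fin r) (Fin r) ℚ) = S.Q ∧ act g t ≠ t) →
      ∀ (m' n' : ℕ) (t' : T r m' n' ℚ), S.V.Hodge t' →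
        (m' = n' ∨ w ≠ 0 ∨ S.AbsAt σ (formT S.Q)) → S.AbsAt σ t') :=
  final_core S w σ
    (main_gen sym kpl sml fct psd trp hdg wt0 S w hT.1
      (fun A hA' m n t ht => gnr_good irh sym kpl wt0 den tos r S.V w S.Q S.pol hT hA A hA' m n t
        ht) σ hQ) m n t ht hmn

end Pool.Agent.Helper21.TH
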