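import Pool.Agent.Helper21.D2.GNR
import Pool.Agent.Helper21.D2.DefsH
import Pool.Agent.Helper21.WE.Stmts

/-!
# D2: skew matrices kill all Hodge tensors, for isolated Hodge numbers
-/

set_option autoImplicit false

namespace Pool.Agent.Helper21.TH

open Matrix Pool.Agent.Helper82.AHS

/-- GNR for isolated Hodge numbers -/
theorem gnr_wideH (irh : ST_IRH) (sym : ST_SYM) (kpl : ST_KPL) (wt0 : ST_WT0) (den : MT.ST_DEN)
    (tos : MT.ST_TOSH) (r : ℕ) (V : HS r) (w : ℤ) (Q : Matrix (Fin r) (Fin r) ℚ) (hQ : V.Pol Q)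
    (hT : WideH V w) (hA : AIrr V w) (A : Matrix (Fin r) (Fin r) ℚ) (hskew : Aᵀ * Q + Q * A = 0)
    (m n : ℕ) (t : T r m n ℚ) (ht : V.Hodge t) : dr m A * t = t * dr n A := by
  obtain ⟨hpure, mm, hmm, hinn, hgood⟩ := hT
  obtain ⟨hdet, hev, hodd, hrel⟩ := sym r V w Q hpure hQ
  have hr : 0 < r := by
    obtain ⟨j, -⟩ := hinn
    exact lt_of_le_of_lt (Nat.zero_le _) j.2
  have hpol : V.Hodge (polT Q) := ((kpl r ℂ Q V.D hdet).1).mpr ⟨(w : ℂ), hrel⟩
  set a₀ : Submodule ℚ (Matrix (Fin r) (Fin r) ℚ) := Ann ℚ V.HT with ha₀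
  set a : Submodule ℚ (Matrix (Fin r) (Fin r) ℚ) := a₀ ⊔ Submodule.span ℚ {1} with ha
  have hmem : ∀ X, X ∈ a ↔ ∃ x ∈ a₀, ∃ c : ℚ, X = x + c • 1 := by
    intro X
    rw [ha, Submodule.mem_sup]
    constructor
    · rintro ⟨x, hx, y, hy, rfl⟩
      obtain ⟨c, rfl⟩ := Submodule.mem_span_singleton.mp hy
      exact ⟨x, hx, c, rfl⟩
    · rintro ⟨x, hx, c, rfl⟩
      exact ⟨x, hx, c • 1, Submodule.mem_span_singleton.mpr ⟨c, rfl⟩, rfl⟩
  have hlie : ∀ x ∈ a₀, ∃ c : ℚ, xᵀ * Q + Q * x = c • Q := by
    intro x hx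
    have h1 := hx 2 2 (polT Q) hpol
    obtain ⟨c, hc⟩ := ((kpl r ℚ Q x hdet).1).mp h1
    rw [map_rat] at hc
    exact ⟨c, hc⟩
  have hsim : ∀ X ∈ a, ∃ c : ℚ, Xᵀ * Q + Q * X = c • Q := by
    intro X hX
    obtain ⟨x, hx, c, rfl⟩ := (hmem X).mp hX
    obtain ⟨d, hd⟩ := hlie x hx
    refine ⟨d + 2 * c, ?_⟩
    rw [Matrix.transpose_add, Matrix.transpose_smul, Matrix.transpose_one, Matrix.add_mul,
      Matrix.mul_add, Matrix.smul_mul, Matrix.mul_smul, Matrix.one_mul, Matrix.mul_one, add_smul,
      ← hd, mul_smul, two_smul]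
    abel
  have hbrk : MT.Brk a := by
    intro X hX Y hY
    obtain ⟨x, hx, c, rfl⟩ := (hmem X).mp hX
    obtain ⟨y, hy, d, rfl⟩ := (hmem Y).mp hY
    rw [hmem]
    refine ⟨x * y - y * x, Ann_lie hx hy, 0, ?_⟩
    simp only [Matrix.add_mul, Matrix.mul_add, Matrix.smul_mul, Matrix.mul_smul, Matrix.one_mul,
      Matrix.mul_one, zero_smul, add_zero, smul_add, smul_smul]
    rw [mul_comm d c]
    abel
  have hD : V.D ∈ Submodule.span ℂ {B | ∃ A ∈ a, B = A.map (algebraMap ℚ ℂ)} := by
    have h1 := ann_span ℂ V.HT V.D_mem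
    refine Submodule.span_mono ?_ h1
    rintro _ ⟨u, hu, rfl⟩
    exact ⟨u, Submodule.mem_sup_left hu, rfl⟩
  have hone : (1 : Matrix (Fin r) (Fin r) ℂ) ∈
      Submodule.span ℂ {B | ∃ A ∈ a, B = A.map (algebraMap ℚ ℂ)} := by
    refine Submodule.subset_span ⟨1, ?_, ?_⟩
    · rw [hmem]
      exact ⟨0, Submodule.zero_mem _, 1, by rw [one_smul, zero_add]⟩
    · rw [Matrix.map_one _ (map_zero _) (map_one _)]
  obtain ⟨hirr, hcomm⟩ := irh r V w Q a hpure hQ hA hsim hD
  have hirrC := den ℚ ℂ r (a : Set (Matrix (Fin r) (Fin r) ℚ)) hirr hcomm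
  -- the shift
  obtain ⟨k, hk⟩ : ∃ k : ℕ, k = w.natAbs + mm.natAbs + ∑ j, (V.p j).natAbs := ⟨_, rfl⟩
  have hp0 : ∀ j, 0 ≤ V.p j + k := by
    intro j
    have h1 : (V.p j).natAbs ≤ ∑ j, (V.p j).natAbs :=
      Finset.single_le_sum (f := fun j => (V.p j).natAbs) (fun _ _ => Nat.zero_le _)
        (Finset.mem_univ j)
    omega
  obtain ⟨w', hw'⟩ : ∃ w' : ℕ, (w' : ℤ) = w + 2 * k := ⟨(w + 2 * k).toNat, by omega⟩
  obtain ⟨m', hm'⟩ : ∃ m' : ℕ, (m' : ℤ) = mm + k := ⟨(mm + k).toNat, by omega⟩
  obtain ⟨h, hh⟩ : ∃ h : Fin r → ℕ, ∀ j, (h j : ℤ) = V.p j + k :=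
    ⟨fun j => (V.p j + k).toNat, fun j => by have := hp0 j; simp only; omega⟩
  have hinn' : ∀ j, MT.Inn w' m' (h j) ↔ Inn w mm (V.p j) := by
    intro j
    have h2 := hh j
    unfold MT.Inn Inn
    omega
  have hisol : Isol V w mm → MT.Isol w' h m' := by
    intro hI i j l hi hj hl
    have h1 := hI i j l ((hinn' i).mp hi) ((hinn' j).mp hj) ((hinn' l).mp hl)
    have h2 := hh i
    have h3 := hh j
    have h4 := hh l
    omega
  have hfil : (Finset.univ.filter fun j => h j = m') =
      (Finset.univ.filter fun j => V.p j = mm) := by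
    ext j
    have h2 := hh j
    simp only [Finset.mem_filter, Finset.mem_univ, true_and]
    omega
  have hsml : Sml V → MT.Sml h := by
    intro hC u hu
    refine hC u fun a => ?_
    by_cases ha0 : 0 ≤ a + k
    · have h1 : (Finset.univ.filter fun j => V.p j = a) =
          (Finset.univ.filter fun j => h j = (a + k).toNat) := by
        ext j
        have h2 := hh j
        simp only [Finset.mem_filter, Finset.mem_univ, true_and]
        omega
      rw [h1]
      exact hu _
    · have h1 : (Finset.univ.filter fun j => V.p j = a) = ∅ := by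
        rw [Finset.filter_eq_empty_iff]
        intro j _ h2
        have h3 := hp0 j
        omega
      rw [h1, Finset.card_empty]
      exact dvd_zero u
  have hmidl : (Finset.univ.filter fun j => h j ≠ m' ∧ h j + m' ≠ w') =
      (Finset.univ.filter fun j => V.p j ≠ mm ∧ V.p j + mm ≠ w) := by
    ext j
    have h2 := hh j
    simp only [Finset.mem_filter, Finset.mem_univ, true_and]
    omega
  have hthin' : MT.WideH w' h := by
    refine ⟨m', by omega, ?_, ?_⟩
    · obtain ⟨j, hj⟩ := hinn
      exact ⟨j, (hinn' j).mpr hj⟩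
    · rcases hgood with ⟨hI, hc⟩ | ⟨hI, ⟨jm, hjm⟩, hfar⟩ | ⟨hI, hc, hthin⟩
      · left
        exact ⟨hisol hI, by rw [hfil]; exact hc⟩
      · right; left
        refine ⟨hisol hI, ⟨jm, ?_⟩, ?_⟩
        · have h2 := hh jm
          omega
        · rcases hfar with ⟨hS, i₁, j₁, hi₁, hj₁, hne, hne'⟩ | hlt | hlt
          · left
            refine ⟨hsml hS, i₁, j₁, (hinn' i₁).mpr hi₁, (hinn' j₁).mpr hj₁, ?_, ?_⟩
            · have h2 := hh i₁
              have h3 := hh j₁
              omega
            · have h2 := hh i₁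
              have h3 := hh j₁
              omega
          · right; left
            unfold MT.Lrg MT.Exc
            rw [hfil, hmidl]
            exact hlt
          · right; right
            unfold MT.Low
            rw [hfil, hmidl]
            exact hlt
      · right; right
        refine ⟨?_, by rw [hfil]; exact hc, ?_⟩
        · rcases hI with hI | hI
          · exact Or.inl (hisol hI)
          · right
            intro j
            have h1 := hI j
            have h2 := hh j
            omega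
        · intro p hp
          have h1 : (Finset.univ.filter fun j => h j = p) =
              (Finset.univ.filter fun j => V.p j = (p : ℤ) - k) := by
            ext j
            have h2 := hh j
            simp only [Finset.mem_filter, Finset.mem_univ, true_and]
            omega
          rw [h1]
          have h2 := hthin ((p : ℤ) - k) (by unfold MT.Inn at hp; unfold Inn; omega)
          by_cases h3 : 2 * p = w'
          · rw [if_pos h3]
            rw [if_pos (by omega)] at h2
            exact h2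
          · rw [if_neg h3]
            rw [if_neg (by omega)] at h2
            exact h2
  have hsign : Q.transpose = (-1 : ℚ) ^ w' • Q := by
    rcases Int.even_or_odd w with hw | hw
    · have h1 : Even w' := by
        rw [← Int.even_coe_nat, hw']
        exact hw.add (even_two_mul _)
      rw [h1.neg_one_pow, one_smul]
      exact hev hw
    · have h1 : Odd w' := by
        rw [← Int.odd_coe_nat, hw']
        exact hw.add_even (even_two_mul _)
      rw [h1.neg_one_pow, neg_one_smul]
      exact hodd hw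
  have hsum : 2 * ∑ j, h j = r * w' := by
    have h1 := trace_rel hdet hrel
    have h2 : ((2 * ∑ j, h j : ℕ) : ℤ) = ((r * w' : ℕ) : ℤ) := by
      push_cast
      rw [Finset.sum_congr rfl fun j _ => hh j, Finset.sum_add_distrib, Finset.sum_const,
        Finset.card_univ, Fintype.card_fin, hw', nsmul_eq_mul]
      linear_combination h1
    exact_mod_cast h2
  have hΘ0 : (V.P : Matrix (Fin r) (Fin r) ℂ) * Matrix.diagonal (fun j => (h j : ℂ)) *
      ((V.P⁻¹ : Matrix.GeneralLinearGroup (Fin r) ℂ) : Matrix (Fin r) (Fin r) ℂ) =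
        V.D + (k : ℂ) • 1 := by
    have h2 : Matrix.diagonal (fun j => (h j : ℂ)) =
        Matrix.diagonal (fun j => (V.p j : ℂ)) + (k : ℂ) • (1 : Matrix (Fin r) (Fin r) ℂ) := by
      rw [Matrix.smul_one_eq_diagonal, Matrix.diagonal_add]
      congr 1
      funext j
      have h3 := hh j
      have h4 : ((h j : ℤ) : ℂ) = ((V.p j + k : ℤ) : ℂ) := by rw [h3]
      push_cast at h4
      exact h4
    rw [h2, Matrix.mul_add, Matrix.add_mul, Matrix.mul_smul, Matrix.mul_one, Matrix.smul_mul,
      gl_mul_inv]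
    rfl
  have hΘ : (V.P : Matrix (Fin r) (Fin r) ℂ) * Matrix.diagonal (fun j => (h j : ℂ)) *
      ((V.P⁻¹ : Matrix.GeneralLinearGroup (Fin r) ℂ) : Matrix (Fin r) (Fin r) ℂ) ∈
        Submodule.span ℂ {B | ∃ A ∈ a, B = A.map (algebraMap ℚ ℂ)} := by
    rw [hΘ0]
    exact Submodule.add_mem _ hD (Submodule.smul_mem _ _ hone)
  have hsc : (∀ Y : Matrix (Fin r) (Fin r) ℚ,
      Y.map (algebraMap ℚ ℂ) * ((V.P : Matrix (Fin r) (Fin r) ℂ) *
        Matrix.diagonal (fun j => (h j : ℂ)) *
          ((V.P⁻¹ : Matrix.GeneralLinearGroup (Fin r) ℂ) : Matrix (Fin r) (Fin r) ℂ)) =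
        ((V.P : Matrix (Fin r) (Fin r) ℂ) * Matrix.diagonal (fun j => (h j : ℂ)) *
          ((V.P⁻¹ : Matrix.GeneralLinearGroup (Fin r) ℂ) : Matrix (Fin r) (Fin r) ℂ)) *
            Y.map (algebraMap ℚ ℂ) → ∃ c : ℚ, Y = c • 1) ∨
      (Finset.univ.filter fun j => 2 * h j = w').card = 1 := by
    rcases hA with hE | ⟨hE, -⟩
    · left
      intro Y hY
      apply hE
      rw [hΘ0, Matrix.mul_add, Matrix.add_mul, Matrix.mul_smul, Matrix.smul_mul, Matrix.mul_one,
        Matrix.one_mul] at hY
      exact add_right_cancel hY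
    · right
      have h1 : (Finset.univ.filter fun j => 2 * h j = w') =
          (Finset.univ.filter fun j => 2 * V.p j = w) := by
        ext j
        have h2 := hh j
        simp only [Finset.mem_filter, Finset.mem_univ, true_and]
        omega
      rw [h1]
      exact hE
  have hAa := tos r w' h Q V.P a hthin' hdet hsign hbrk hsim hsum hirrC hΘ hsc A hskew
  obtain ⟨x, hx, c, rfl⟩ := (hmem A).mp hAa
  have hxt : dr m x * t = t * dr n x := by
    have h1 := hx m n t ht
    rw [up_rat] at h1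
    exact h1
  rw [dr_add, dr_add, dr_smul, dr_smul, dr_one_eq, dr_one_eq, Matrix.add_mul, Matrix.mul_add, hxt]
  by_cases hmn : m = n
  · subst hmn
    simp only [Matrix.smul_mul, Matrix.mul_smul, Matrix.one_mul, Matrix.mul_one]
  · by_cases hw : w = 0
    · have hform : V.Hodge (formT Q) := ((kpl r ℂ Q V.D hdet).2).mpr (by
        rw [hrel, hw, Int.cast_zero, zero_smul])
      have h1 := ((kpl r ℚ Q x hdet).2).mp (hx 0 2 (formT Q) hform)
      rw [map_rat] at h1
      have h2 : (2 * c) • Q = 0 := by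
        have h3 := hskew
        rw [Matrix.transpose_add, Matrix.transpose_smul, Matrix.transpose_one, Matrix.add_mul,
          Matrix.mul_add, Matrix.smul_mul, Matrix.mul_smul, Matrix.one_mul, Matrix.mul_one] at h3
        rw [mul_smul, two_smul]
        calc c • Q + c • Q = (xᵀ * Q + c • Q + (Q * x + c • Q)) - (xᵀ * Q + Q * x) := by abel
          _ = 0 := by rw [h3, h1, sub_zero]
      have hQ0 : Q ≠ 0 := by
        rintro rfl
        have : Nonempty (Fin r) := ⟨⟨0, hr⟩⟩
        exact hdet Matrix.det_zero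
      have hc : c = 0 := by
        rcases smul_eq_zero.mp h2 with h3 | h3
        · linarith
        · exact absurd h3 hQ0
      rw [hc, zero_smul, zero_smul, Matrix.zero_mul, Matrix.mul_zero]
    · have h1 := wt0 r m n V w t hpure hw hmn ht
      rw [h1]
      simp only [Matrix.mul_zero, Matrix.zero_mul]

end Pool.Agent.Helper21.TH
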