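import Pool.Agent.Helper21.D2.FinalG
import Pool.Agent.Helper21.D2.GNRH

/-!
# D2: the final theorem for isolated Hodge numbers
-/

set_option autoImplicit false

namespace Pool.Agent.Helper21.TH

open Matrix Pool.Agent.Helper82.AHS

/-- The final theorem for isolated Hodge numbers. -/
theorem final_wideH (irh : ST_IRH) (sym : ST_SYM) (kpl : ST_KPL) (wt0 : ST_WT0) (den : MT.ST_DEN)
    (tos : MT.ST_TOSH) (sml : ST_SML) (fct : ST_FCT) (psd : ST_PSD) (trp : ST_TRP)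
    (hdg : ST_HDG) {r : ℕ} (S : System r) (w : ℤ) (hT : WideH S.V w)
    (hA : AIrr S.V w) (σ : ℂ ≃+* ℂ) (hQ : S.AbsAt σ (polT S.Q)) (m n : ℕ) (t : T r m n ℚ)
    (ht : S.V.Hodge t) (hmn : m = n ∨ w ≠ 0 ∨ S.AbsAt σ (formT S.Q)) :
    (Odd w ∨ m + n < r ∨ Odd (m + n + r) → S.AbsAt σ t) ∧
    (∃ t' : T r m n ℚ, (S.W σ).Hodge t' ∧ up ℂ t' = act (S.M σ) (up ℂ t)) ∧
    (∀ ℓ : Nat.Primes, ∃ t' : T r m n ℚ, (S.W σ).Hodge t' ∧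
      up (@Padic ℓ ⟨ℓ.2⟩) t' = act (S.E σ ℓ) (up (@Padic ℓ ⟨ℓ.2⟩) t)) ∧
    (S.AbsAt σ t → (∃ g : GL (Fin r) ℚ, (g : Matrix (Fin r) (Fin r) ℚ)ᵀ * S.Q *
        (g : Matrix (Fin r) (Fin r) ℚ) = S.Q ∧ act g t ≠ t) →
      ∀ (m' n' : ℕ) (t' : T r m' n' ℚ), S.V.Hodge t' →
        (m' = n' ∨ w ≠ 0 ∨ S.AbsAt σ (formT S.Q)) → S.AbsAt σ t') :=
  final_core S w σ
    (main_gen sym kpl sml fct psd trp hdg wt0 S w hT.1
      (fun A hA' m n t ht => gnr_wideH irh sym kpl wt0 den tos r S.V w S.Q S.pol hT hA A hA' m n t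
        ht) σ hQ) m n t ht hmn

end Pool.Agent.Helper21.TH
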