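import Pool.Agent.Helper21.D2.FinalW
import Pool.Agent.Helper21.WD.FinalR
import Pool.Agent.Helper25.D2.IRH
import Pool.Agent.Helper14.D2.FCT
import Pool.Agent.Helper2.D2.KPL
import Pool.Agent.Helper3.D2.SML
import Pool.Agent.Helper5.D2.SPN
import Pool.Agent.Helper53.D2.SYM
import Pool.Agent.Helper6.D2.WT0
import Pool.Agent.Helper72.D2.PSD
import Pool.Agent.Helper8.D2.SQR
import Pool.Agent.Helper82.D2.TRP
import Pool.Agent.Helper84.D2.TNT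
import Pool.Agent.Helper92.D2.HDG

/-!
# D2: the final theorem for wide Hodge numbers, from the last row of T14
-/

set_option autoImplicit false

namespace Pool.Agent.Helper21.TH

open Matrix Pool.Agent.Helper82.AHS

theorem final_of_bd3 (bd3 : MT.ST_BD3) (pos0 : MT.ST_POS0) {r : ℕ} (S : System r) (w : ℤ)
    (hT : Wide S.V w) (hA : AIrr S.V w) (σ : ℂ ≃+* ℂ) (hQ : S.AbsAt σ (polT S.Q)) (m n : ℕ) (t : T r m n ℚ)
    (ht : S.V.Hodge t) (hmn : m = n ∨ w ≠ 0 ∨ S.AbsAt σ (formT S.Q)) :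
    (Odd w ∨ m + n < r ∨ Odd (m + n + r) → S.AbsAt σ t) ∧
    (∃ t' : T r m n ℚ, (S.W σ).Hodge t' ∧ up ℂ t' = act (S.M σ) (up ℂ t)) ∧
    (∀ ℓ : Nat.Primes, ∃ t' : T r m n ℚ, (S.W σ).Hodge t' ∧
      up (@Padic ℓ ⟨ℓ.2⟩) t' = act (S.E σ ℓ) (up (@Padic ℓ ⟨ℓ.2⟩) t)) ∧
    (S.AbsAt σ t → (∃ g : GL (Fin r) ℚ, (g : Matrix (Fin r) (Fin r) ℚ)ᵀ * S.Q *
        (g : Matrix (Fin r) (Fin r) ℚ) = S.Q ∧ act g t ≠ t) →
      ∀ (m' n' : ℕ) (t' : T r m' n' ℚ), S.V.Hodge t' →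
        (m' = n' ∨ w ≠ 0 ∨ S.AbsAt σ (formT S.Q)) → S.AbsAt σ t') :=
  final_wide (st_IRH st_SYM MT.st_OI2) st_SYM st_KPL st_WT0 MT.st_DEN (MT.tosw_of bd3 pos0) st_SML
    st_FCT (st_PSD st_TNT) (st_TRP st_SQR) (st_HDG st_SPN) S w hT hA σ hQ m n t ht hmn

end Pool.Agent.Helper21.TH
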