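import Pool.Agent.Helper21.D2.Defs
import Pool.Agent.Helper21.MT9.Stmts

/-!
# Thin Hodge numbers and absolute Hodge tensors: exact statements of the modules (D2)
Proofs: /team-store/d2_helper21.md
-/

set_option autoImplicit false

namespace Pool.Agent.Helper21.TH

open Matrix Pool.Agent.Helper82.AHS

/-! ## A. Linear algebra -/

/-- SYM: the symmetry of a polarization of a pure Hodge structure (from `MM_posDef`). -/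
def ST_SYM : Prop :=
  ∀ (r : ℕ) (V : HS r) (w : ℤ) (Q : Matrix (Fin r) (Fin r) ℚ), (∀ i, V.p i + V.q i = w) →
    V.Pol Q → Q.det ≠ 0 ∧ (Even w → Qᵀ = Q) ∧ (Odd w → Qᵀ = -Q) ∧
      V.Dᵀ * Q.map (algebraMap ℚ ℂ) + Q.map (algebraMap ℚ ℂ) * V.D =
        (w : ℂ) • Q.map (algebraMap ℚ ℂ)

/-- KPL: the matrices which kill `Q⁻¹ ⊗ Q`, and those which kill `Q`. -/
def ST_KPL : Prop :=
  ∀ (r : ℕ) (K : Type) [Field K] [Algebra ℚ K] (Q : Matrix (Fin r) (Fin r) ℚ)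
    (x : Matrix (Fin r) (Fin r) K), Q.det ≠ 0 →
    (dr 2 x * up K (polT Q) = up K (polT Q) * dr 2 x ↔
      ∃ c : K, xᵀ * Q.map (algebraMap ℚ K) + Q.map (algebraMap ℚ K) * x =
        c • Q.map (algebraMap ℚ K)) ∧
    (dr 0 x * up K (formT Q) = up K (formT Q) * dr 2 x ↔
      xᵀ * Q.map (algebraMap ℚ K) + Q.map (algebraMap ℚ K) * x = 0)

/-- SML: the matrices which transport `Q⁻¹ ⊗ Q` to `Q'⁻¹ ⊗ Q'`, and `Q` to `Q'`. -/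
def ST_SML : Prop :=
  ∀ (r : ℕ) (K : Type) [Field K] [Algebra ℚ K] (Q Q' : Matrix (Fin r) (Fin r) ℚ)
    (g : GL (Fin r) K), Q.det ≠ 0 → Q'.det ≠ 0 →
    (up K (polT Q') = act g (up K (polT Q)) → ∃ c : K, c ≠ 0 ∧
      (g : Matrix (Fin r) (Fin r) K)ᵀ * Q'.map (algebraMap ℚ K) *
        (g : Matrix (Fin r) (Fin r) K) = c • Q.map (algebraMap ℚ K)) ∧
    (up K (formT Q') = act g (up K (formT Q)) →
      (g : Matrix (Fin r) (Fin r) K)ᵀ * Q'.map (algebraMap ℚ K) *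
        (g : Matrix (Fin r) (Fin r) K) = Q.map (algebraMap ℚ K))

/-- FCT: rational tensors conjugate to `Q⁻¹ ⊗ Q` over `ℂ` are of this form; the same for `Q`. -/
def ST_FCT : Prop :=
  ∀ (r : ℕ) (Q : Matrix (Fin r) (Fin r) ℚ) (g : GL (Fin r) ℂ), Q.det ≠ 0 →
    (∀ t : T r 2 2 ℚ, up ℂ t = act g (up ℂ (polT Q)) →
      ∃ Q' : Matrix (Fin r) (Fin r) ℚ, Q'.det ≠ 0 ∧ t = polT Q') ∧
    (∀ t : T r 0 2 ℚ, up ℂ t = act g (up ℂ (formT Q)) →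
      ∃ Q' : Matrix (Fin r) (Fin r) ℚ, Q'.det ≠ 0 ∧ t = formT Q')

/-- SPN: skew matrices over `ℂ` are combinations of rational ones. -/
def ST_SPN : Prop :=
  ∀ (r m n : ℕ) (Q : Matrix (Fin r) (Fin r) ℚ) (t : T r m n ℚ), Q.det ≠ 0 →
    (Qᵀ = Q ∨ Qᵀ = -Q) →
    (∀ A : Matrix (Fin r) (Fin r) ℚ, Aᵀ * Q + Q * A = 0 → dr m A * t = t * dr n A) →
    ∀ (K : Type) [Field K] [Algebra ℚ K] (x : Matrix (Fin r) (Fin r) K),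
      xᵀ * Q.map (algebraMap ℚ K) + Q.map (algebraMap ℚ K) * x = 0 →
        dr m x * up K t = up K t * dr n x

/-- TNT: tensors killed by the skew matrices are fixed by the isometries of determinant one (this
is helper84's TIN of project MT9 for the definitions of helper82). -/
def ST_TNT : Prop :=
  ∀ (r m n : ℕ) (Q : Matrix (Fin r) (Fin r) ℚ) (t : T r m n ℚ), Q.det ≠ 0 →
    (Qᵀ = Q ∨ Qᵀ = -Q) →
    (∀ A : Matrix (Fin r) (Fin r) ℚ, Aᵀ * Q + Q * A = 0 → dr m A * t = t * dr n A) →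
    ∀ (K : Type) [Field K] [Algebra ℚ K] (g : GL (Fin r) K),
      (g : Matrix (Fin r) (Fin r) K)ᵀ * Q.map (algebraMap ℚ K) *
        (g : Matrix (Fin r) (Fin r) K) = Q.map (algebraMap ℚ K) →
      (g : Matrix (Fin r) (Fin r) K).det = 1 → act g (up K t) = up K t

/-- PSD: invariant and pseudo-invariant parts (from TNT and a rational reflection). -/
def ST_PSD : Prop :=
  ∀ (r m n : ℕ) (Q : Matrix (Fin r) (Fin r) ℚ) (t : T r m n ℚ), Q.det ≠ 0 →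
    (Qᵀ = Q ∨ Qᵀ = -Q) →
    (∀ A : Matrix (Fin r) (Fin r) ℚ, Aᵀ * Q + Q * A = 0 → dr m A * t = t * dr n A) →
    ∃ t₁ t₂ : T r m n ℚ, t = t₁ + t₂ ∧
      (∀ A : Matrix (Fin r) (Fin r) ℚ, Aᵀ * Q + Q * A = 0 → dr m A * t₁ = t₁ * dr n A) ∧
      (∀ A : Matrix (Fin r) (Fin r) ℚ, Aᵀ * Q + Q * A = 0 → dr m A * t₂ = t₂ * dr n A) ∧
      (∀ (K : Type) [Field K] [Algebra ℚ K] (g : GL (Fin r) K),
        (g : Matrix (Fin r) (Fin r) K)ᵀ * Q.map (algebraMap ℚ K) *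
          (g : Matrix (Fin r) (Fin r) K) = Q.map (algebraMap ℚ K) →
        act g (up K t₁) = up K t₁ ∧
        act g (up K t₂) = (g : Matrix (Fin r) (Fin r) K).det • up K t₂) ∧
      (Qᵀ = -Q ∨ m + n < r ∨ Odd (m + n + r) → t₂ = 0)

/-- SQR: squares in all `ℚ_ℓ` are squares. -/
def ST_SQR : Prop :=
  ∀ x : ℚ, (∀ ℓ : Nat.Primes, ∃ y : @Padic ℓ ⟨ℓ.2⟩, y * y = algebraMap ℚ (@Padic ℓ ⟨ℓ.2⟩) x) →
    ∃ z : ℚ, z * z = x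

/-! ## B. Transport -/

/-- TRP: similitudes over `ℂ` and over all `ℚ_ℓ` transport invariants and, up to signs,
pseudo-invariants to the same rational tensors (from `rat_of_fixed`, `exists_emb` and SQR). -/
def ST_TRP : Prop :=
  ∀ (r : ℕ) (Q Q' : Matrix (Fin r) (Fin r) ℚ) (M : GL (Fin r) ℂ)
    (E : ∀ ℓ : Nat.Primes, GL (Fin r) (@Padic ℓ ⟨ℓ.2⟩)) (c : ℂ) (e : ∀ ℓ : Nat.Primes,
      @Padic ℓ ⟨ℓ.2⟩), Q.det ≠ 0 → Q'.det ≠ 0 → c ≠ 0 → (∀ ℓ, e ℓ ≠ 0) →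
    (M : Matrix (Fin r) (Fin r) ℂ)ᵀ * Q'.map (algebraMap ℚ ℂ) * (M : Matrix (Fin r) (Fin r) ℂ) =
      c • Q.map (algebraMap ℚ ℂ) →
    (∀ ℓ : Nat.Primes, (E ℓ : Matrix (Fin r) (Fin r) (@Padic ℓ ⟨ℓ.2⟩))ᵀ *
      Q'.map (algebraMap ℚ (@Padic ℓ ⟨ℓ.2⟩)) *
        (E ℓ : Matrix (Fin r) (Fin r) (@Padic ℓ ⟨ℓ.2⟩)) =
      e ℓ • Q.map (algebraMap ℚ (@Padic ℓ ⟨ℓ.2⟩))) →
    ∃ s : Nat.Primes → ℚ, (∀ ℓ, s ℓ = 1 ∨ s ℓ = -1) ∧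
      ∀ (m n : ℕ) (t₁ t₂ : T r m n ℚ),
        (∀ g : GL (Fin r) ℂ, (g : Matrix (Fin r) (Fin r) ℂ)ᵀ * Q.map (algebraMap ℚ ℂ) *
            (g : Matrix (Fin r) (Fin r) ℂ) = Q.map (algebraMap ℚ ℂ) →
          act g (up ℂ t₁) = up ℂ t₁ ∧
          act g (up ℂ t₂) = (g : Matrix (Fin r) (Fin r) ℂ).det • up ℂ t₂) →
        (m = n ∨ (c = 1 ∧ ∀ ℓ, e ℓ = 1)) →
        (t₂ = 0 ∨ Even r ∨ (c = 1 ∧ ∀ ℓ, e ℓ = 1)) →
        ∃ a b : T r m n ℚ, up ℂ a = act M (up ℂ t₁) ∧ up ℂ b = act M (up ℂ t₂) ∧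
          ∀ ℓ : Nat.Primes,
            up (@Padic ℓ ⟨ℓ.2⟩) a = act (E ℓ) (up (@Padic ℓ ⟨ℓ.2⟩) t₁) ∧
            up (@Padic ℓ ⟨ℓ.2⟩) (s ℓ • b) = act (E ℓ) (up (@Padic ℓ ⟨ℓ.2⟩) t₂)

/-- HDG: the transported tensors are Hodge tensors (from SPN). -/
def ST_HDG : Prop :=
  ∀ (r m n : ℕ) (W : HS r) (Q Q' : Matrix (Fin r) (Fin r) ℚ) (g : GL (Fin r) ℂ) (c μ : ℂ)
    (t a : T r m n ℚ), Q.det ≠ 0 → (Qᵀ = Q ∨ Qᵀ = -Q) →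
    (∀ A : Matrix (Fin r) (Fin r) ℚ, Aᵀ * Q + Q * A = 0 → dr m A * t = t * dr n A) →
    (g : Matrix (Fin r) (Fin r) ℂ)ᵀ * Q'.map (algebraMap ℚ ℂ) * (g : Matrix (Fin r) (Fin r) ℂ) =
      c • Q.map (algebraMap ℚ ℂ) → c ≠ 0 →
    W.Dᵀ * Q'.map (algebraMap ℚ ℂ) + Q'.map (algebraMap ℚ ℂ) * W.D =
      μ • Q'.map (algebraMap ℚ ℂ) → (m = n ∨ μ = 0) →
    up ℂ a = act g (up ℂ t) → W.Hodge a

/-- WT0: Hodge tensors of type `(m, n)` with `m ≠ n` are zero unless the weight is zero. -/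
def ST_WT0 : Prop :=
  ∀ (r m n : ℕ) (V : HS r) (w : ℤ) (t : T r m n ℚ), (∀ i, V.p i + V.q i = w) → w ≠ 0 → m ≠ n →
    V.Hodge t → t = 0

/-! ## C. Hodge structures with small inner Hodge numbers -/

/-- IRH: irreducibility (see helper25's HIR of project MT9; the second case uses `MT.ST_OI2`). -/
def ST_IRH : Prop :=
  ∀ (r : ℕ) (V : HS r) (w : ℤ) (Q : Matrix (Fin r) (Fin r) ℚ)
    (a : Submodule ℚ (Matrix (Fin r) (Fin r) ℚ)), (∀ i, V.p i + V.q i = w) → V.Pol Q →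
    AIrr V w → (∀ A ∈ a, ∃ c : ℚ, Aᵀ * Q + Q * A = c • Q) →
    V.D ∈ Submodule.span ℂ {B | ∃ A ∈ a, B = A.map (algebraMap ℚ ℂ)} →
    MT.LIrr a ∧ ∀ Y : Matrix (Fin r) (Fin r) ℚ, (∀ A ∈ a, A * Y = Y * A) → ∃ c : ℚ, Y = c • 1

/-- GNR: all skew matrices kill all Hodge tensors (from IRH, SYM, KPL, WT0, and `MT.ST_DEN`,
`MT.ST_TOS` of project MT9). -/
def ST_GNR : Prop :=
  ∀ (r : ℕ) (V : HS r) (w : ℤ) (Q : Matrix (Fin r) (Fin r) ℚ), V.Pol Q → Thin V w → AIrr V w →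
    ∀ A : Matrix (Fin r) (Fin r) ℚ, Aᵀ * Q + Q * A = 0 →
      ∀ (m n : ℕ) (t : T r m n ℚ), V.Hodge t → dr m A * t = t * dr n A

/-! ## D. The theorem -/

/-- MAIN -/
def ST_MAIN : Prop :=
  ∀ (r : ℕ) (S : System r) (w : ℤ), Thin S.V w → AIrr S.V w → ∀ σ : ℂ ≃+* ℂ,
    S.AbsAt σ (polT S.Q) →
    ∃ s : Nat.Primes → ℚ, (∀ ℓ, s ℓ = 1 ∨ s ℓ = -1) ∧
      ∀ (m n : ℕ) (t : T r m n ℚ), S.V.Hodge t → (m = n ∨ w ≠ 0 ∨ S.AbsAt σ (formT S.Q)) →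
        ∃ a b : T r m n ℚ, (S.W σ).Hodge a ∧ (S.W σ).Hodge b ∧
          up ℂ (a + b) = act (S.M σ) (up ℂ t) ∧
          (∀ ℓ : Nat.Primes, up (@Padic ℓ ⟨ℓ.2⟩) (a + s ℓ • b) =
            act (S.E σ ℓ) (up (@Padic ℓ ⟨ℓ.2⟩) t)) ∧
          (Odd w ∨ m + n < r ∨ Odd (m + n + r) → b = 0) ∧
          ((∃ g : GL (Fin r) ℚ, (g : Matrix (Fin r) (Fin r) ℚ)ᵀ * S.Q *
            (g : Matrix (Fin r) (Fin r) ℚ) = S.Q ∧ act g t ≠ t) → b ≠ 0)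

end Pool.Agent.Helper21.TH
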